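import Pool.Agent.W420.NS.FStm

/-! # Project NS (helper420), part FCLO: the check of the final join is sound -/

set_option autoImplicit false

namespace Pool.Agent.W723.NS

open Pool.Agent.W420.NS

theorem allL_imp (f : ℕ → Bool) : ∀ (l : List ℕ), allL f l = true → ∀ m ∈ l, f m = true := by
  intro l
  induction l with
  | nil => intro _ m hm; exact absurd hm (List.not_mem_nil)
  | cons a l ih =>
    intro h m hm
    have e : allL f (a :: l) = @Bool.rec (fun _ => Bool) false (allL f l) (f a) := rfl
    rw [e] at h
    cases hfa : f a with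
    | false => rw [hfa] at h; exact absurd h Bool.false_ne_true
    | true =>
      rw [hfa] at h
      rcases List.mem_cons.mp hm with rfl | hm'
      · exact hfa
      · exact ih h m hm'

theorem allT_find (f : ℕ → ℕ → Bool) (x m : ℕ) : ∀ (T : Tr (List ℕ)), T.allT f = true →
    m ∈ T.find [] x → f x m = true := by
  intro T
  induction T with
  | nil => intro _ hm; exact absurd hm (List.not_mem_nil)
  | node k v l r il ir =>
    intro h hm
    have e : (Tr.node k v l r).allT f = @Bool.rec (fun _ => Bool) false
      (@Bool.rec (fun _ => Bool) false (r.allT f) (l.allT f)) (allL (f k) v) := rfl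
    have e2 : (Tr.node k v l r).find [] x = @Bool.rec (fun _ => List ℕ) (r.find [] x)
      (@Bool.rec (fun _ => List ℕ) (l.find [] x) v (Nat.beq x k)) (Nat.ble x k) := rfl
    rw [e] at h
    rw [e2] at hm
    cases hv : allL (f k) v with
    | false => rw [hv] at h; exact absurd h Bool.false_ne_true
    | true =>
      rw [hv] at h
      cases hl : l.allT f with
      | false =>
        rw [hl] at h; exact absurd h Bool.false_ne_true
      | true =>
        rw [hl] at h
        cases h1 : Nat.ble x k with
        | false => rw [h1] at hm; exact ir h hm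
        | true =>
          rw [h1] at hm
          cases h2 : Nat.beq x k with
          | false => rw [h2] at hm; exact il hl hm
          | true =>
            rw [h2] at hm
            have hx : x = k := Nat.eq_of_beq_eq_true h2
            rw [hx]
            exact allL_imp (f k) v hv m hm

theorem FCLO (h1 : S_FORD) (h3 : S_FDIG) : S_FCLO := by
  intro s σ τ TA TB hσ hτ hchk a b ha hb hmat
  obtain ⟨x, m, hm, _, rfl⟩ := ha
  obtain ⟨y, n, hn, _, rfl⟩ := hb
  have hσl : σ.length = s := by rw [hσ.length_eq, List.length_range]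
  have hτl : τ.length = s := by rw [hτ.length_eq, List.length_range]
  have hσr : ∀ i ∈ σ, i < s := fun i hi => List.mem_range.mp ((hσ.mem_iff).mp hi)
  have hτr : ∀ i ∈ τ, i < s := fun i hi => List.mem_range.mp ((hτ.mem_iff).mp hi)
  obtain ⟨ea, -, -⟩ := h1 s σ x m hσr
  obtain ⟨eb, hlt, -⟩ := h1 s τ y n hτr
  rw [hσl] at ea
  rw [hτl] at eb hlt
  rw [ea, eb] at hmat
  rw [ea, eb]
  have c1 := allT_find _ x m TA hchk hm
  have c2 := allT_find _ y n TB c1 hn
  have hneg := h3.2.2.2 s s s (rn σ x) (rn τ y) (rn σ m) (rn τ n) le_rfl le_rfl hmat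
  rw [Nat.mod_eq_of_lt hlt] at hneg
  have hb : Nat.beq (negD s (rn σ x)) (rn τ y) = true := by rw [hneg]; exact Nat.beq_refl _
  have c3 : @Bool.rec (fun _ => Bool) true
    (clsB s (unz s (rn σ x) (rn σ m)) (unz s (rn τ y) (rn τ n)))
    (Nat.beq (negD s (rn σ x)) (rn τ y)) = true := c2
  rw [hb] at c3
  have c4 : clsB s (unz s (rn σ x) (rn σ m)) (unz s (rn τ y) (rn τ n)) = true := c3
  unfold clsB at c4
  obtain ⟨u, hu, c5⟩ := List.any_eq_true.mp c4
  obtain ⟨w, hw, c6⟩ := List.any_eq_true.mp c5
  rw [Bool.and_eq_true, Bool.and_eq_true, Bool.not_eq_true'] at c6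
  refine ⟨u, hu, w, hw, c6.1, c6.2.1, fun h => ?_⟩
  have := c6.2.2
  rw [h] at this
  exact absurd this (by rw [show Nat.beq _ _ = true from Nat.beq_refl _]; decide)

end Pool.Agent.W723.NS
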